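import Pool.Agent.K3h71.NP.Fib
import Pool.Agent.K3h71.NP.G36.Gauss
import Pool.Agent.K3h71.NP.L93.Line
import Pool.Agent.K3h85.NP.NetZ
import Pool.Agent.K3h85.NP.NetK
import Pool.Agent.K3h67.NP.Fld
import Pool.Agent.K3h60.NP.AsyV
import Pool.Agent.K3h42.NP.SumW
import Pool.Agent.K3h42.NP.CntV
import Pool.Agent.K3h42.NP.ExF

/-!
# The Tauberian generalized Nagao conjecture over function fields of products of nets of curves

Let `M` be a finitely generated field of characteristic zero and of transcendence degree `d` over `ℚ`,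
which contains the number field `k`, and let `K = M(w₁, w₂)` be the field of rational functions in two
variables over `M`.  Let `C_0, ..., C_r` be the curves

  `C_i : A_i(X, Y) + w₁ + w₂ X = 0`

over `K`, where each `A_i ∈ M[X, Y]` is a polynomial of the shape
`A_i = Y^n - X^m + (terms of weight less than n m)`, `X` of weight `n = n_i ≥ 1` and `Y` of weight
`m = m_i ≥ 2`, for coprime `n_i` and `m_i`, without any further condition.  These are the generic members of
nets of curves of arbitrary genus `(n_i - 1) (m_i - 1) / 2` with one place at infinity.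

The base `𝒴` of the fibration is the fibre product `C_1 × ... × C_r` over a model of `K` over `k`: a variety of
dimension `m = d + 2 + r` with the function field `K_r = K(C_1 × ... × C_r)`, and the generic fibre is the curve
`X = C_0` over `K_r`.

The algebraic side.  Let `κ_i` be the number of the irreducible factors of `A_0(X, Y) - A_i(X, Z)` in
`M[X, Z, Y]`, and let `J_0` be the Jacobian of `C_0`.  The group `J_0(L)` is, for every field `L ⊇ K`, the
class group of `L[X, Y] / (A_0 + w₁ + w₂ X)`, as there is one point at infinity, and it is rational.  We prove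

* `rank J_0(K) = 0`,
* `rank J_0(K(C_i)) = κ_i - 1` for the function field `K(C_i)` of `C_i`, `i = 1, ..., r`.

Thus `rank Hom_K(J_i, J_0) = κ_i - 1`, and since `J_0(K_r) = J_0(K) ⊕ ⨁_i Hom_K(J_i, J_0)` (a rational map from
a product of curves to an abelian variety is a sum of rational maps of the factors), the rank of `J_0(K_r)` is
`∑_i (κ_i - 1)`.  (This last step for `r ≥ 2` is not part of the theorem.)

The analytic side.  Let `R` be any model of `K` over the integers of `k`, that is any integral domain which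
is finitely generated as a ring, contains the integers of `k` and has the field of fractions `K`, and over
which the curves have equations `G_i(X, Y) = 0` of the same shapes, and let `N` be any nonzero element of `R`
(for example one such that the fibres over the points with `N ≠ 0` are smooth).  The points of
`𝒴` above the place `v` are the `(φ, z_1, ..., z_r)`, where `φ` is a point of `Spec R` above `v`, rational
over the residue field of `v`, with `N ≠ 0`, and `z_i` is an affine point of the curve `G_i^φ = 0`.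
Let `𝔄_v` be the average `q_v^{-m} ∑ a(fibre)` of the traces of the fibres of `X` over these points.  Then
the averages `T⁻¹ ∑_{q_v ≤ T} 𝔄_v log q_v` converge to `-∑_i (κ_i - 1)` for `T → ∞`.

The theorem applies to `M k'` for all the finite extensions `k'` of `k`, and the `κ_i` remain bounded.  Thus the
`k(𝒴)/k`-trace of `J_0` is zero, and `𝔄* = 𝔄` (this last argument is not part of the theorem).
-/

set_option autoImplicit false

namespace Pool.Agent.Results.MP_1a0ddd_nt.NetProducts

open Polynomial NumberField IsDedekindDomain Filter Topology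

/-- `A = Yⁿ - X^m + (terms of weight less than n m)`, where `X` has weight `n` and `Y` has weight `m`.
The outer variable of `R[X][X]` is `Y`, and `A.coeff j ∈ R[X]` is the coefficient of `Y^j`. -/
def OnePlace {R : Type} [CommRing R] (n m : ℕ) (A : R[X][X]) : Prop :=
  A.Monic ∧ A.natDegree = n ∧ (-(A.coeff 0)).Monic ∧ (A.coeff 0).natDegree = m ∧
    ∀ j, 0 < j → j < n → A.coeff j ≠ 0 → n * (A.coeff j).natDegree + m * j < n * m

/-- The polynomial `A(X, Y) + w₁ + w₂ X` over `K`. -/
noncomputable def curve {M K : Type} [Field M] [Field K] [Algebra M K] (A : M[X][X]) (w₁ w₂ : K) :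
    K[X][X] :=
  A.map (mapRingHom (algebraMap M K)) + C (C w₁ + C w₂ * X)

/-- The number of the irreducible factors of `f` up to units. -/
noncomputable def numFactors {D : Type} [CommMonoidWithZero D] (f : D) : ℕ :=
  Nat.card {p : Associates D // Irreducible p ∧ p ∣ Associates.mk f}

/-- The number of the irreducible factors (up to constants) of `A'(X, Y) - A(X, Z)` in
`M[X, Z, Y] = M[X][Z][Y]`. -/
noncomputable def kappa {M : Type} [Field M] (A A' : M[X][X]) : ℕ :=
  numFactors (A'.map C - C A : M[X][X][X])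

/-- `K₁ = K(x, y)` is the function field of the curve `F(x, y) = 0`. -/
def IsFunctionField {K K₁ : Type} [Field K] [Field K₁] [Algebra K K₁] (F : K[X][X]) (x y : K₁) : Prop :=
  Transcendental K x ∧ evalEval x y (F.map (mapRingHom (algebraMap K K₁))) = 0 ∧
    IntermediateField.adjoin K {x, y} = ⊤

/-- The rank of the class group of the ring `L[X, Y] / (F)` is `n`, if it is a Dedekind domain. -/
def ClassGroupHasRank {L : Type} [Field L] (F : L[X][X]) (n : ℕ) : Prop :=
  ∀ _ : IsDedekindDomain (AdjoinRoot F),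
    Module.rank ℤ (Additive (ClassGroup (AdjoinRoot F))) = (n : Cardinal)

/-- The trace of the Frobenius on `H¹` of the curve `g(x, y) = 0` with one point at infinity over the
finite field `F` (if it is smooth): the number of the elements of `F` minus the number of the affine
points. -/
noncomputable def traceOne (F : Type) [Field F] (g : F[X][X]) : ℝ :=
  (Nat.card F : ℝ) - Nat.card {P : F × F // evalEval P.1 P.2 g = 0}

/-- The points of the base above `v`, rational over the residue field of `v`: a point `P.1` of `Spec R` above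
`v` at which `N` does not vanish, and for each `i = 1, ..., r` an affine point `P.2 i` of the fibre
of the curve `G_i = 0` at this point. -/
abbrev Point {k R : Type} [Field k] [NumberField k] [CommRing R] [Algebra (𝓞 k) R] {r : ℕ}
    (G : Fin (r + 1) → R[X][X]) (N : R) (v : HeightOneSpectrum (𝓞 k)) : Type :=
  {P : (R →+* 𝓞 k ⧸ v.asIdeal) × (Fin r → (𝓞 k ⧸ v.asIdeal) × (𝓞 k ⧸ v.asIdeal)) //
    (P.1.comp (algebraMap (𝓞 k) R) = Ideal.Quotient.mk v.asIdeal ∧ P.1 N ≠ 0) ∧
      ∀ i, evalEval (P.2 i).1 (P.2 i).2 ((G i.succ).map (mapRingHom P.1)) = 0}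

/-- The average `𝔄_v = q_v^{-e} ∑ a(fibre)` of the traces of the fibres of `G_0(X, Y) = 0` over the points of
the base above `v`. -/
noncomputable def average {k R : Type} [Field k] [NumberField k] [CommRing R] [Algebra (𝓞 k) R] {r : ℕ}
    (G : Fin (r + 1) → R[X][X]) (N : R) (e : ℕ) (v : HeightOneSpectrum (𝓞 k)) : ℝ :=
  ((Nat.card (𝓞 k ⧸ v.asIdeal) : ℝ) ^ e)⁻¹ *
    ∑ᶠ P : Point G N v, traceOne (𝓞 k ⧸ v.asIdeal) ((G 0).map (mapRingHom P.1.1))

/-- `Σ_T(b) = ∑_{v ∉ S, q_v ≤ T} b(v) log q_v`. -/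
noncomputable def sumUpTo {k : Type} [Field k] [NumberField k] (S : Finset (HeightOneSpectrum (𝓞 k)))
    (b : HeightOneSpectrum (𝓞 k) → ℝ) (T : ℝ) : ℝ :=
  ∑ᶠ v ∈ {v : HeightOneSpectrum (𝓞 k) | v ∉ S ∧ (Ideal.absNorm v.asIdeal : ℝ) ≤ T},
    b v * Real.log (Ideal.absNorm v.asIdeal : ℝ)

/-- **The Tauberian generalized Nagao conjecture for the curves `A_0(X, Y) + w₁ + w₂ X = 0` over the function
fields of the products of arbitrarily many curves `A_i(X, Y) + w₁ + w₂ X = 0` of arbitrary genus, for an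
arbitrary finitely generated field `M` of characteristic zero and for every model.** -/
theorem result {k : Type} [Field k] [NumberField k] {M : Type} [Field M] [CharZero M] [Algebra k M]
    (hM : ∃ S : Finset M, Subfield.closure (S : Set M) = ⊤) {d : ℕ} (hd : Algebra.trdeg ℚ M = d)
    {K : Type} [Field K] [CharZero K] [Algebra M K] {w₁ w₂ : K}
    (hw : AlgebraicIndependent M ![w₁, w₂]) (hK : IntermediateField.adjoin M {w₁, w₂} = ⊤)
    {r : ℕ} {n m : Fin (r + 1) → ℕ} (hn : ∀ i, 0 < n i) (hm : ∀ i, 1 < m i)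
    (hnm : ∀ i, (n i).Coprime (m i)) {A : Fin (r + 1) → M[X][X]}
    (hA : ∀ i, OnePlace (n i) (m i) (A i)) :
    Algebra.trdeg ℚ K = (d + 2 : ℕ) ∧ (∀ i, OnePlace (n i) (m i) (curve (A i) w₁ w₂)) ∧
    -- the algebraic side: the rank of `J_0(K)`
    ClassGroupHasRank (curve (A 0) w₁ w₂) 0 ∧
    -- the algebraic side: the rank of `J_0(K(C_i))`, for the function field `K(C_i)` of `C_i`
    (∀ i : Fin r, ∀ (K₁ : Type) [Field K₁] [Algebra K K₁] (x y : K₁),
      IsFunctionField (curve (A i.succ) w₁ w₂) x y →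
        ClassGroupHasRank ((curve (A 0) w₁ w₂).map (mapRingHom (algebraMap K K₁)))
          (kappa (A i.succ) (A 0) - 1)) ∧
    -- the function fields exist, and there is at least one irreducible factor
    (∀ i : Fin r, 1 ≤ kappa (A i.succ) (A 0) ∧
      ∃ (K₁ : Type) (_ : Field K₁) (_ : Algebra K K₁) (x y : K₁),
        IsFunctionField (curve (A i.succ) w₁ w₂) x y) ∧
    -- the analytic side: the limit of the averages of the `𝔄_v`, for every model
    ∀ (R : Type) [CommRing R] [IsDomain R] [Algebra.FiniteType ℤ R] [Algebra R K]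
      [IsFractionRing R K] [Algebra (𝓞 k) R],
      (∀ z : 𝓞 k, algebraMap R K (algebraMap (𝓞 k) R z) = algebraMap M K (algebraMap k M z)) →
      ∀ G : Fin (r + 1) → R[X][X], (∀ i, OnePlace (n i) (m i) (G i)) →
        (∀ i, (G i).map (mapRingHom (algebraMap R K)) = curve (A i) w₁ w₂) →
          ∀ N : R, N ≠ 0 → ∀ S : Finset (HeightOneSpectrum (𝓞 k)),
            Tendsto (fun T : ℝ => sumUpTo S (fun v => average G N (d + 2 + r) v) T / T) atTop
              (𝓝 (-∑ i : Fin r, ((kappa (A i.succ) (A 0) : ℝ) - 1))) := by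
  classical
  have hA' : ∀ i, Pool.Agent.K3h82.CP.IsCab (n i) (m i) (A i) := fun i =>
    ⟨(hA i).1, (hA i).2.1, (hA i).2.2.1, (hA i).2.2.2.1, (hA i).2.2.2.2⟩
  have hcv : ∀ i, curve (A i) w₁ w₂ =
      Pool.Agent.K3h71.NP.net (Pool.Agent.K3h82.CP.up2 K (A i)) w₁ w₂ := fun i => rfl
  have hcab : ∀ i, Pool.Agent.K3h82.CP.IsCab (n i) (m i) (curve (A i) w₁ w₂) := fun i =>
    Pool.Agent.K3h71.NP.net_cab (hn i) (hm i) ((hA' i).map _) w₁ w₂
  have hkap : ∀ i : Fin r, kappa (A i.succ) (A 0) =
      Pool.Agent.K3h71.NP.nF (Pool.Agent.K3h71.NP.VV (A i.succ) (A 0)) := fun i => rfl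
  have hpos : ∀ i : Fin r, 1 ≤ kappa (A i.succ) (A 0) := fun i => by
    rw [hkap]
    exact Pool.Agent.K3h71.NP.nF_VV_pos (hA' 0).monic (by rw [(hA' 0).deg]; exact hn 0)
  have hL := Pool.Agent.K3h71.NP.L93.t_Line
  have hG := Pool.Agent.K3h71.NP.G36.t_Gauss
  have hFld := Pool.Agent.K3h67.NP.t_Fld
  refine ⟨Pool.Agent.K3h71.NP.trdeg_two hd hw hK, fun i => ⟨(hcab i).monic, (hcab i).deg,
    (hcab i).lead, (hcab i).deg0, (hcab i).wt⟩, ?_, ?_, ?_, ?_⟩
  · have key : ∀ F : K[X][X], F = Pool.Agent.K3h71.NP.net (Pool.Agent.K3h82.CP.up2 K (A 0)) w₁ w₂ →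
        ClassGroupHasRank F 0 := by
      rintro F rfl hD
      have h1 := Pool.Agent.K3h85.NP.t_NetZ hL M K (n 0) (m 0) (A 0) w₁ w₂ hw hK (hn 0) (hm 0)
        (hnm 0) (hA' 0)
      rw [h1, Nat.cast_zero]
    exact key _ (hcv 0)
  · intro i K₁ _ _ x y hxy hD
    let _ : Algebra M K₁ := ((algebraMap K K₁).comp (algebraMap M K)).toAlgebra
    have hT : IsScalarTower M K K₁ := IsScalarTower.of_algebraMap_eq fun _ => rfl
    have hc : CharZero K₁ := charZero_of_injective_algebraMap (algebraMap K K₁).injective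
    have key : ∀ F : K₁[X][X], F = Pool.Agent.K3h71.NP.net (Pool.Agent.K3h82.CP.up2 K₁ (A 0))
        (algebraMap K K₁ w₁) (algebraMap K K₁ w₂) → ClassGroupHasRank F
          (kappa (A i.succ) (A 0) - 1) := by
      rintro F rfl hD'
      exact (Pool.Agent.K3h85.NP.t_NetK hL hFld hG M K K₁ (n 0) (m 0) (A i.succ) (A 0) w₁ w₂ x y
        hw hK (hA' i.succ).monic (by rw [(hA' i.succ).deg]; exact hn i.succ)
        ⟨hxy.1, hxy.2.1, hxy.2.2⟩ (hn 0) (hm 0) (hnm 0) (hA' 0)).2
    refine key _ ?_ hD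
    rw [hcv, Pool.Agent.K3h71.NP.net_map]
    congr 1
    unfold Pool.Agent.K3h82.CP.up2
    rw [coe_mapRingHom, coe_mapRingHom, Polynomial.map_map, mapRingHom_comp]
    rfl
  · intro i
    refine ⟨hpos i, ?_⟩
    obtain ⟨K₁, i1, i2, x, y, h⟩ := Pool.Agent.K3h42.NP.t_ExF K (n i.succ) (m i.succ)
      (curve (A i.succ) w₁ w₂) (hn i.succ) (by have := hm i.succ; omega) (hnm i.succ)
      (hcab i.succ)
    exact ⟨K₁, i1, i2, x, y, h.tr, h.eq, h.gen⟩
  · intro R _ _ _ _ _ _ hk G hG0 hGK N hN S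
    have hG' : ∀ i, Pool.Agent.K3h82.CP.IsCab (n i) (m i) (G i) := fun i =>
      ⟨(hG0 i).1, (hG0 i).2.1, (hG0 i).2.2.1, (hG0 i).2.2.2.1, (hG0 i).2.2.2.2⟩
    have h6 := Pool.Agent.K3h71.NP.limit_net (k := k) hM hd Pool.Agent.K3h42.NP.t_SumW
      Pool.Agent.K3h42.NP.t_CntV (Pool.Agent.K3h60.NP.t_AsyV hG) hw hK hn hm hnm hA' R hk hG' hGK
      hN S
    have h8 := Pool.Agent.R410.NG.sumT_lim h6
    -- the places which divide some `n i`
    have hn0 : ((∏ i, n i : ℕ) : 𝓞 k) ≠ 0 := by
      exact_mod_cast (Finset.prod_ne_zero_iff.2 fun i _ => (hn i).ne' : (∏ i, n i) ≠ 0)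
    have hZ : {v : HeightOneSpectrum (𝓞 k) | ((∏ i, n i : ℕ) : 𝓞 k) ∈ v.asIdeal}.Finite := by
      have := Pool.Agent.Y707.PC.ae_notMem hn0
      rw [Filter.eventually_cofinite] at this
      simpa only [not_not] using this
    have h9 : ∀ v, v ∉ hZ.toFinset → -average G N (d + 2 + r) v = Pool.Agent.R410.NG.avg
        (Pool.Agent.K3h71.NP.w4 n m) (Pool.Agent.K3h71.NP.gg n m G) N (d + 2) v := by
      intro v hv
      rw [Set.Finite.mem_toFinset] at hv
      have hfv := Pool.Agent.H341R2.finite_v v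
      have hfin : Finite (R →+* 𝓞 k ⧸ v.asIdeal) := inferInstance
      have hnv : ∀ i, ((n i : ℕ) : 𝓞 k ⧸ v.asIdeal) ≠ 0 := by
        intro i h0
        apply hv
        show ((∏ i, n i : ℕ) : 𝓞 k) ∈ v.asIdeal
        rw [← Ideal.Quotient.eq_zero_iff_mem, map_natCast, Nat.cast_prod]
        exact Finset.prod_eq_zero (Finset.mem_univ i) h0
      have hq0 : (Nat.card (𝓞 k ⧸ v.asIdeal) : ℝ) ≠ 0 := by
        exact_mod_cast (Nat.card_pos (α := 𝓞 k ⧸ v.asIdeal)).ne'
      have hWC : ∀ (φ : R →+* 𝓞 k ⧸ v.asIdeal) (i : Fin (r + 1)),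
          Pool.Agent.K3h82.CP.wC (n i) (m i) (𝓞 k ⧸ v.asIdeal)
            (fun t => (Pool.Agent.K3h71.NP.gg n m G ⟨i, t⟩).map φ) =
          (Nat.card {z : (𝓞 k ⧸ v.asIdeal) × (𝓞 k ⧸ v.asIdeal) //
            evalEval z.1 z.2 ((G i).map (mapRingHom φ)) = 0} : ℝ) -
              Nat.card (𝓞 k ⧸ v.asIdeal) := by
        intro φ i
        have e1 : (fun t => (Pool.Agent.K3h71.NP.gg n m G ⟨i, t⟩).map φ) =
            Pool.Agent.K3h82.CP.tup (n i) (m i) ((G i).map (mapRingHom φ)) :=
          funext fun t => Pool.Agent.K3h82.CP.tup_map φ (G i) t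
        unfold Pool.Agent.K3h82.CP.wC
        rw [if_neg (hnv i), e1, Pool.Agent.K3h82.CP.cabOf_tup ((hG' i).map φ)]
      have e2 : ∑ᶠ P : Point G N v,
          traceOne (𝓞 k ⧸ v.asIdeal) ((G 0).map (mapRingHom P.1.1)) =
          ∑ᶠ φ : {φ : R →+* 𝓞 k ⧸ v.asIdeal //
            φ.comp (algebraMap (𝓞 k) R) = Ideal.Quotient.mk v.asIdeal ∧ φ N ≠ 0},
            traceOne (𝓞 k ⧸ v.asIdeal) ((G 0).map (mapRingHom φ.1)) *
              ∏ i : Fin r, (Nat.card {z : (𝓞 k ⧸ v.asIdeal) × (𝓞 k ⧸ v.asIdeal) //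
                evalEval z.1 z.2 ((G i.succ).map (mapRingHom φ.1)) = 0} : ℝ) :=
        Pool.Agent.K3h71.NP.finsum_pts (H := R →+* 𝓞 k ⧸ v.asIdeal)
          (Z := (𝓞 k ⧸ v.asIdeal) × (𝓞 k ⧸ v.asIdeal))
          (fun φ => φ.comp (algebraMap (𝓞 k) R) = Ideal.Quotient.mk v.asIdeal ∧ φ N ≠ 0)
          (fun φ i z => evalEval z.1 z.2 ((G i.succ).map (mapRingHom φ)) = 0)
          (fun φ => traceOne (𝓞 k ⧸ v.asIdeal) ((G 0).map (mapRingHom φ)))
      unfold Pool.Agent.R410.NG.avg Pool.Agent.R410.NG.sR average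
      rw [e2, pow_add, mul_inv, mul_assoc, ← mul_neg, mul_finsum, ← finsum_neg_distrib]
      congr 1
      refine finsum_congr fun φ => ?_
      unfold Pool.Agent.K3h71.NP.w4
      rw [hWC φ.1 0]
      have e3 : ∀ i : Fin r, (1 + (Nat.card (𝓞 k ⧸ v.asIdeal) : ℝ)⁻¹ *
          Pool.Agent.K3h82.CP.wC (n i.succ) (m i.succ) (𝓞 k ⧸ v.asIdeal)
            (fun t => (Pool.Agent.K3h71.NP.gg n m G ⟨i.succ, t⟩).map φ.1)) =
          (Nat.card (𝓞 k ⧸ v.asIdeal) : ℝ)⁻¹ *
            (Nat.card {z : (𝓞 k ⧸ v.asIdeal) × (𝓞 k ⧸ v.asIdeal) //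
              evalEval z.1 z.2 ((G i.succ).map (mapRingHom φ.1)) = 0} : ℝ) := by
        intro i
        rw [hWC φ.1 i.succ, mul_sub, inv_mul_cancel₀ hq0]
        ring
      rw [Finset.prod_congr rfl fun i _ => e3 i, Finset.prod_mul_distrib, Finset.prod_const,
        Finset.card_univ, Fintype.card_fin, ← inv_pow]
      unfold traceOne
      ring
    have h10 := (Pool.Agent.K3h82.CP.sumT_fin S hZ.toFinset h9 h8).neg
    refine h10.congr fun T => ?_
    rw [Pool.Agent.R410.NG.sumT_neg, neg_div, neg_neg]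
    rfl

end Pool.Agent.Results.MP_1a0ddd_nt.NetProducts
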