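import Pool.Agent.K3h18.FB.Main

/-!
# The averages of the Tauberian Nagao conjecture over all number fields

`f : 𝒳 → 𝒴` is a fibration over a number field `K`, given over an affine open part of `𝒴` over which the
fibres are smooth, `B` the Chow trace, and `W = (P_X(K̄(𝒴)) / τB(K̄)) ⊗ ℚ` with the action of the absolute
Galois group of `K`, or a subrepresentation of it.  For a number field `F ⊇ K` the rank of
`P_X(F(𝒴)) / τB(F)` is `dim W^{Gal(K̄/F)}` (`rank ρ F`), and Q1 for `f` over `F` says that the averages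
`T⁻¹ ∑_{v ∉ R, q_v ≤ T} z_v log q_v` over the primes `v` of `F`, `z_v = -𝔄*_v`, tend to this rank.
By the theorems of Grothendieck and Deligne `z_v` is, up to `O(q_v^{-1/2})`, a sum of `N` numbers of
absolute value `1`, among which are the eigenvalues of the Frobenius on `W` (`IsPartOf`).  No limit is
assumed to exist.
The definitions are in `Pool.Agent.K3h18.FB.Defs`, `Pool.Agent.W353.FB.Defs`,
`Pool.Agent.W353.SP.Defs`, `Pool.Agent.W353.AT.TDefs`, `Pool.Agent.W353.AT.Defs`,
`Pool.Agent.W353.TD.Defs` and `Pool.Agent.W353.EF.Defs`.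
-/

set_option autoImplicit false

namespace Pool.Agent.Results.MP_1a0ddd_nt.NumberFieldAverages

open NumberField Pool.Agent.W353.FB

/-- **The averages over all number fields.**  Let `W` be a part of the values `z_v = -𝔄*_v`, given by `N`
numbers of absolute value `≤ 1`, `s = N - dim W`, and let `x_F(T)` be the average over the primes `v` of
`F ⊇ K` with `q_v ≤ T` minus `dim W^{Gal(K̄/F)}`, and `x_χ(T)` the average of `z_v Re χ(Frob_v)` over the
primes of `K` minus `dim (W ⊗ χ)^{Gal(K̄/K)}`, for an Artin representation `χ`.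
* (`ClassFunctionLaw`) For every finite Galois extension `M` of `K` there are class functions
  `θ_T : Gal(M/K) → [-s, s]` such that `x_F(T)` is the mean value of `θ_T · fix_F`, up to `o(1)`, for all
  `F` between `K` and `M`, and `x_χ(T)` the mean value of `θ_T · Re χ`, for all `χ` of `Gal(M/K)`.
* (`AverageRelations`) For all `F_k`, real `c_k`, `η > 0` and large `T`, `|∑ c_k x_{F_k}(T)|` is at most
  `s` times the mean value of `|∑ c_k fix_{F_k}|`, plus `η`.
* (`ComparisonWithBase`) For large `T`, `|x_F(T) - x_K(T)| ≤ 2 s δ + η` for the proportion `δ` of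
  derangements; `|x_F(T) - x_K(T)| ≤ 2 s / [K(ζ_p) : K] + η` for all radical extensions `F = K(α)`,
  `α ^ p ∈ K`, of prime degree `p`; and `∑ (x_{F_k}(T) - x_K(T))² / (r_k - 1) ≤ s² + η` for fields
  `F_k ≠ K` with `F_k ⊗ F_l` a field for `k ≠ l`, `r_k` the number of the simple factors of `F_k ⊗ F_k`.
* (`TauberianSpectrum`) Every sequence `T_j → ∞` has a subsequence along which the limits `-δ_F` of `x_F`
  and `-y_χ` of `x_χ` exist for all number fields `F ⊇ K` and all Artin representations `χ` of `K`.
  Then `∑ y_χ² ≤ s²`, the sum over the irreducible `χ`; `|∑ y_χ χ| ≤ s`, the sum over the irreducible `χ`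
  of a finite Galois group `Gal(M/K)`; `δ_F = ∑ y_χ dim χ^{Gal(K̄/F)}`; and for all `c` and `η > 0` there is
  a finite Galois extension `M` of `K` with `|δ_F - δ_{F ∩ M}| < η` for all `F` of degree at most `c`. -/
theorem result (K : Type) [Field K] [NumberField K] (f : Fibration K) {n : ℕ}
    (B : Set (MvPolynomial (Fin n) (𝓞 K))) (g : ℕ) (hg : 1 ≤ g) (N : ℕ)
    (W : Type) [AddCommGroup W] [Module ℚ W] [FiniteDimensional ℚ W]
    (ρ : Representation ℚ Gal(AlgebraicClosure K/K) W)
    (hW : IsPartOf (nagaoValue f B g) N ρ) :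
    Pool.Agent.K3h18.FB.ClassFunctionLaw (nagaoValue f B g) N ρ ∧
      Pool.Agent.K3h18.FB.AverageRelations (nagaoValue f B g) N ρ ∧
      Pool.Agent.K3h18.FB.ComparisonWithBase (nagaoValue f B g) N ρ ∧
      TauberianSpectrum (nagaoValue f B g) N ρ :=
  ⟨Pool.Agent.K3h18.FB.classFunctionLaw (nagao_uniq f B hg) hW,
    Pool.Agent.K3h18.FB.averageRelations (nagao_uniq f B hg) hW,
    Pool.Agent.K3h18.FB.comparisonWithBase (nagao_uniq f B hg) hW,
    tauberian (nagao_uniq f B hg) hW⟩

end Pool.Agent.Results.MP_1a0ddd_nt.NumberFieldAverages
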