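import Pool.Agent.K3h82.CP.Fin

/-!
# The Tauberian generalized Nagao conjecture for pencils of curves with one place at infinity

Let `M` be a finitely generated field of characteristic zero and of transcendence degree `d` over `ℚ`,
which contains the number field `k`, and let `K = M(w)` be the field of rational functions over `M`: the
function field of a variety over `k` of dimension `d + 1`.  Let `n` and `m` be coprime positive integers,
and give `X` the weight `n` and `Y` the weight `m`.  Let

  `A = Yⁿ - X^m + (terms of weight less than n m)`,   `B ≠ 0` with all terms of weight less than `n m`,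

be polynomials in `X, Y` over `M` without any further condition, and let `C` be the curve
`A(X, Y) + w B(X, Y) = 0` over `K`, the generic curve of the pencil spanned by `A` and `B`.  We assume that
its affine part is regular, that is, that the ring `K[X, Y] / (A + w B)` is a Dedekind domain.  The curve
has one point at infinity, and it is rational; so the group `J(K)` of the points of the Jacobian is
the class group of this ring, and the genus of `C` is `(n - 1) (m - 1) / 2`.  For `n = 2` these are
hyperelliptic curves, for `n ≥ 3` they are in general not hyperelliptic.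

The algebraic side: the rank of `J(K)` is `b - c`, where `b` is the number of the closed base points of the
pencil in the affine plane over `M`, that is, of the prime ideals of `M[X, Y]` which contain `A` and `B`,
and `c` is the number of the distinct irreducible factors of `B` (up to constants).

The analytic side: let `R` be any model of `K` over the integers of `k`, that is any integral domain which
is finitely generated as a ring, contains the integers of `k` and has the field of fractions `K`, and over
which the curve has an equation `G(X, Y) = 0` of the same shape, and let `N` be any nonzero element of `R`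
(for example one such that the fibres over the points with `N ≠ 0` are smooth).  Let `𝔄_v` be the fibre
averages over the points of `Spec R` above `v` with `N ≠ 0`.  Then the averages
`T⁻¹ ∑_{q_v ≤ T} 𝔄_v log q_v` converge to `-rank J(K)` for `T → ∞`.

The theorem applies to `M k'` for all the finite extensions `k'` of `k`, and the rank is at most the
dimension of `M[X, Y] / (A, B)`, so it remains bounded.  Thus the `K/k`-trace of `J` is zero, and
`𝔄* = 𝔄` (this last argument is not part of the theorem).

Proof of the algebraic side.  Localizing `M[X, Y]` at the forms `∏ (A + θ B)` (homogenizations of the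
polynomials in `w`) and inverting `B` gives the ring of the affine curve without the zeros of `B`; this is a
unique factorization domain, as `A + θ B` is a prime for every `θ`.  So the class group is generated by the
primes above `B`, which are the closed base points, and the relations are given by the factors of `B`.
-/

set_option autoImplicit false

namespace Pool.Agent.Results.MP_1a0ddd_nt.OnePlacePencils

open Polynomial NumberField IsDedekindDomain Filter Topology

/-- `A = Yⁿ - X^m + (terms of weight less than n m)`, where `X` has weight `n` and `Y` has weight `m`.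
The outer variable of `R[X][X]` is `Y`, and `A.coeff j ∈ R[X]` is the coefficient of `Y^j`. -/
def OnePlace {R : Type} [CommRing R] (n m : ℕ) (A : R[X][X]) : Prop :=
  A.Monic ∧ A.natDegree = n ∧ (-(A.coeff 0)).Monic ∧ (A.coeff 0).natDegree = m ∧
    ∀ j, 0 < j → j < n → A.coeff j ≠ 0 → n * (A.coeff j).natDegree + m * j < n * m

/-- All the terms of `B` have weight less than `n m`. -/
def LowWeight {R : Type} [CommRing R] (n m : ℕ) (B : R[X][X]) : Prop :=
  ∀ j, B.coeff j ≠ 0 → n * (B.coeff j).natDegree + m * j < n * m

/-- The polynomial `A(X, Y) + w B(X, Y)` over `K`. -/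
noncomputable def curve {M K : Type} [Field M] [Field K] [Algebra M K] (A B : M[X][X]) (w : K) :
    K[X][X] :=
  A.map (mapRingHom (algebraMap M K)) + C (C w) * B.map (mapRingHom (algebraMap M K))

/-- The closed base points: the prime ideals which contain `A` and `B`. -/
abbrev BasePoint {M : Type} [Field M] (A B : M[X][X]) : Type :=
  {P : Ideal M[X][X] // P.IsPrime ∧ A ∈ P ∧ B ∈ P}

/-- The irreducible factors of `B` up to constants. -/
abbrev Component {M : Type} [Field M] (B : M[X][X]) : Type :=
  {p : Associates M[X][X] // Irreducible p ∧ p ∣ Associates.mk B}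

/-- The rank: the number of the closed base points minus the number of the distinct irreducible factors
of `B` (up to constants). -/
noncomputable def rho {M : Type} [Field M] (A B : M[X][X]) : ℕ :=
  Nat.card (BasePoint A B) - Nat.card (Component B)

/-- The trace of the Frobenius on `H¹` of the curve `g(x, y) = 0` with one point at infinity over the
finite field `F` (if it is smooth): the number of the elements of `F` minus the number of the affine
points. -/
noncomputable def traceOne (F : Type) [Field F] (g : F[X][X]) : ℝ :=
  (Nat.card F : ℝ) - Nat.card {P : F × F // evalEval P.1 P.2 g = 0}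

/-- The average `𝔄_v = q_v^{-e} ∑ a(fibre)` of the traces of the fibres of `G(X, Y) = 0` over the points of
`Spec R` above `v`, rational over the residue field of `v`, at which `N` does not vanish. -/
noncomputable def average {k R : Type} [Field k] [NumberField k] [CommRing R] [Algebra (𝓞 k) R]
    (G : R[X][X]) (N : R) (e : ℕ) (v : HeightOneSpectrum (𝓞 k)) : ℝ :=
  ((Nat.card (𝓞 k ⧸ v.asIdeal) : ℝ) ^ e)⁻¹ *
    ∑ᶠ φ : {φ : R →+* 𝓞 k ⧸ v.asIdeal //
      φ.comp (algebraMap (𝓞 k) R) = Ideal.Quotient.mk v.asIdeal ∧ φ N ≠ 0},
        traceOne (𝓞 k ⧸ v.asIdeal) (G.map (mapRingHom φ.1))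

/-- `Σ_T(b) = ∑_{v ∉ S, q_v ≤ T} b(v) log q_v`. -/
noncomputable def sumUpTo {k : Type} [Field k] [NumberField k] (S : Finset (HeightOneSpectrum (𝓞 k)))
    (b : HeightOneSpectrum (𝓞 k) → ℝ) (T : ℝ) : ℝ :=
  ∑ᶠ v ∈ {v : HeightOneSpectrum (𝓞 k) | v ∉ S ∧ (Ideal.absNorm v.asIdeal : ℝ) ≤ T},
    b v * Real.log (Ideal.absNorm v.asIdeal : ℝ)

/-- **The Tauberian generalized Nagao conjecture for all the pencils `A(X, Y) + w B(X, Y) = 0` of curves
with one place at infinity, for an arbitrary finitely generated field `M` of characteristic zero and for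
every model.** -/
theorem result {k : Type} [Field k] [NumberField k] {M : Type} [Field M] [CharZero M] [Algebra k M]
    (hM : ∃ S : Finset M, Subfield.closure (S : Set M) = ⊤) {d : ℕ} (hd : Algebra.trdeg ℚ M = d)
    {K : Type} [Field K] [CharZero K] [Algebra M K] {w : K} (hw : Transcendental M w)
    (hK : IntermediateField.adjoin M {w} = ⊤)
    {n m : ℕ} (hn : 0 < n) (hm : 0 < m) (hnm : n.Coprime m) {A B : M[X][X]} (hA : OnePlace n m A)
    (hB : LowWeight n m B) (hB0 : B ≠ 0) [hD : IsDedekindDomain (AdjoinRoot (curve A B w))] :
    Algebra.trdeg ℚ K = (d + 1 : ℕ) ∧ OnePlace n m (curve A B w) ∧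
    -- the algebraic side: the rank of `J(K)`
    Finite (BasePoint A B) ∧ Finite (Component B) ∧
    Nat.card (Component B) ≤ Nat.card (BasePoint A B) ∧
    Module.rank ℤ (Additive (ClassGroup (AdjoinRoot (curve A B w)))) = rho A B ∧
    -- the analytic side: the limit of the averages of the `𝔄_v`, for every model
    ∀ (R : Type) [CommRing R] [IsDomain R] [Algebra.FiniteType ℤ R] [Algebra R K]
      [IsFractionRing R K] [Algebra (𝓞 k) R],
      (∀ z : 𝓞 k, algebraMap R K (algebraMap (𝓞 k) R z) = algebraMap M K (algebraMap k M z)) →
      ∀ G : R[X][X], OnePlace n m G → G.map (mapRingHom (algebraMap R K)) = curve A B w →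
        ∀ N : R, N ≠ 0 → ∀ S : Finset (HeightOneSpectrum (𝓞 k)),
          Tendsto (fun T : ℝ => sumUpTo S (fun v => average G N (d + 1) v) T / T) atTop
            (𝓝 (-(rho A B : ℝ))) := by
  classical
  have hP : Pool.Agent.K3h82.CP.Pen n m A B w :=
    { tr := hw
      ge := fun z => Pool.Agent.R410.NG.gen_line hK z hw
      hn := hn
      hm := hm
      hc := hnm
      hA := ⟨hA.1, hA.2.1, hA.2.2.1, hA.2.2.2.1, hA.2.2.2.2⟩
      hB := hB
      hB0 := hB0 }
  have hfin : Finite (Component B) := Pool.Agent.K3h82.CP.cmp_finite hB0
  let _ : Fintype (Component B) := Fintype.ofFinite _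
  have hF := Pool.Agent.K3h82.CP.fac_cmp B
  have hcab := hP.cab
  have hD' : IsDedekindDomain (AdjoinRoot (Pool.Agent.K3h82.CP.FF A B w)) := hD
  obtain ⟨h1, h2⟩ := hP.rank hF
  rw [← Nat.card_eq_fintype_card] at h1 h2
  have hρ : (rho A B : ℝ) = (Nat.card (BasePoint A B) : ℝ) - Fintype.card (Component B) := by
    unfold rho
    rw [Nat.cast_sub h1, Nat.card_eq_fintype_card (α := Component B)]
  refine ⟨Pool.Agent.R410.NG.trdeg_line hd hw hK,
    ⟨hcab.monic, hcab.deg, hcab.lead, hcab.deg0, hcab.wt⟩,
    Pool.Agent.K3h82.CP.bpt_finite hP.irrA hP.ndvd, hfin, h1, h2, ?_⟩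
  intro R _ _ _ _ _ _ hk G hG hGK N hN S
  have hG' : Pool.Agent.K3h82.CP.IsCab n m G := ⟨hG.1, hG.2.1, hG.2.2.1, hG.2.2.2.1, hG.2.2.2.2⟩
  have h6 := Pool.Agent.K3h82.CP.natural_cab (k := k) hM hd hP hK hF R hk hG' hGK hN S
  have h8 := Pool.Agent.R410.NG.sumT_lim h6
  -- the places which divide `n`
  have hn0 : ((n : ℕ) : 𝓞 k) ≠ 0 := by exact_mod_cast hn.ne'
  have hZ : {v : HeightOneSpectrum (𝓞 k) | ((n : ℕ) : 𝓞 k) ∈ v.asIdeal}.Finite := by
    have := Pool.Agent.Y707.PC.ae_notMem hn0
    rw [Filter.eventually_cofinite] at this
    simpa only [not_not] using this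
  have h9 : ∀ v, v ∉ hZ.toFinset → -average G N (d + 1) v = Pool.Agent.R410.NG.avg
      (Pool.Agent.K3h82.CP.wC n m) (Pool.Agent.K3h82.CP.tup n m G) N (d + 1) v := by
    intro v hv
    rw [Set.Finite.mem_toFinset] at hv
    have hnv : ((n : ℕ) : 𝓞 k ⧸ v.asIdeal) ≠ 0 := by
      intro h0
      apply hv
      show ((n : ℕ) : 𝓞 k) ∈ v.asIdeal
      rw [← Ideal.Quotient.eq_zero_iff_mem, map_natCast]
      exact h0
    unfold Pool.Agent.R410.NG.avg Pool.Agent.R410.NG.sR average
    rw [← mul_neg, ← finsum_neg_distrib]
    congr 1
    refine finsum_congr fun φ => ?_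
    have e1 : (fun j => (Pool.Agent.K3h82.CP.tup n m G j).map φ.1) =
        Pool.Agent.K3h82.CP.tup n m (G.map (mapRingHom φ.1)) :=
      funext fun j => Pool.Agent.K3h82.CP.tup_map φ.1 G j
    unfold Pool.Agent.K3h82.CP.wC traceOne
    rw [if_neg hnv, e1, Pool.Agent.K3h82.CP.cabOf_tup (hG'.map φ.1)]
    ring
  have h10 := (Pool.Agent.K3h82.CP.sumT_fin S hZ.toFinset h9 h8).neg
  rw [← hρ] at h10
  refine h10.congr fun T => ?_
  rw [Pool.Agent.R410.NG.sumT_neg, neg_div, neg_neg]
  rfl

end Pool.Agent.Results.MP_1a0ddd_nt.OnePlacePencils
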