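import Pool.Agent.K3h71.PP.Mod

/-!
# The Tauberian generalized Nagao conjecture for pencils of plane curves

Let `M` be a finitely generated field of characteristic zero and of transcendence degree `d` over `ℚ`,
which contains the number field `k`, and let `K = M(w)` be the field of rational functions over `M`: the
function field of a variety over `k` of dimension `d + 1`.  Let

  `A = Yⁿ + (terms of total degree ≤ n)`,   `B = (terms of total degree ≤ n without Yⁿ)`

be polynomials in `X, Y` over `M`, and let `C` be the curve `A(X, Y) + w B(X, Y) = 0` of degree `n` over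
`K`, the generic curve of the pencil spanned by `A` and `B`.  We assume that the pencil has no base points
at infinity, that is, that the forms of degree `n` of `A` and of `B` are coprime; and that the affine curve
is regular, that is, that `K[X, Y] / (A + w B)` is a Dedekind domain.  Any pencil of plane curves of degree
`n` over `M` with a finite base locus has this shape in suitable coordinates (the line at infinity must not
meet the base locus), so up to a change of coordinates these are all the pencils of plane curves with a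
smooth generic member.  The genus of `C` is `(n - 1) (n - 2) / 2`.

The projective closure of `C` is smooth.  Its points at infinity are the zeros of the form of degree `n` of
`A + w B`, which is irreducible over `K`, so they form one closed point of degree `n`.  Hence the class
group of the ring `K[X, Y] / (A + w B)` is the quotient of `Pic(C)` by one class of degree `n`, and has the
same rank as `Pic⁰(C)`, which is the rank of `J(K)`, as `J(K) / Pic⁰(C)` is a torsion group (this remark is
not part of the theorem).

The algebraic side: the rank of the class group is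

  `ρ = b - c - ∑_Φ (c_Φ - 1)`,

where `b` is the number of the closed base points of the pencil, `c` the number of the distinct irreducible
factors of `B` (the member at `w = ∞`), and `c_Φ` the number of the distinct irreducible factors over `M` of
the member of the pencil over the closed point `Φ(w) = 0` of the affine line (`Φ` runs through the monic
irreducible polynomials over `M`; `c_Φ = 1` with finitely many exceptions).

The analytic side: let `R` be any model of `K` over the integers of `k`, that is any integral domain which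
is finitely generated as a ring, contains the integers of `k` and has the field of fractions `K`, and over
which the curve has an equation `G(X, Y) = 0` of the same shape.  There is a nonzero element `N₀` of `R`
such that the fibres over the points with `N₀ ≠ 0` are smooth.  Let `N` be any nonzero element of `R`, and
let `𝔄_v` be the fibre averages over the points of `Spec R` above `v` with `N ≠ 0` and with a smooth fibre.
Then the averages `T⁻¹ ∑_{q_v ≤ T} 𝔄_v log q_v` converge to `-ρ` for `T → ∞`.

The theorem applies to `M k'` for all the finite extensions `k'` of `k`, and the rank is at most the number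
of the base points, so at most `n²`.  Thus the `K/k`-trace of `J` is zero, and `𝔄* = 𝔄` (this last argument
is not part of the theorem).

Proof.  Homogenizing the polynomials in `w` by `A` and `B` embeds `M[X, Y]` into `K[X, Y] / (A + w B)`, and
a localization of `M[X, Y]` is the localization of this ring at `B`; so the class group is generated by
the primes above `B`, which are the closed base points, and the relations come from the components of the
members.  For the analytic side one counts the points of the total space of the pencil: the affine plane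
blown up in the base points, minus the fibres over the closed points `P(w) = 0` of the discriminant.  The
smooth members are irreducible, and satisfy the Hasse-Weil bound.
-/

set_option autoImplicit false

namespace Pool.Agent.Results.MP_1a0ddd_nt.PlanePencils

open Polynomial NumberField IsDedekindDomain Filter Topology

/-- `A = Yⁿ + (terms of total degree ≤ n)`.  The outer variable of `R[X][X]` is `Y`, and `A.coeff j ∈ R[X]`
is the coefficient of `Y^j`. -/
def Plane {R : Type} [CommRing R] (n : ℕ) (A : R[X][X]) : Prop :=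
  A.Monic ∧ A.natDegree = n ∧ ∀ j, A.coeff j ≠ 0 → (A.coeff j).natDegree + j ≤ n

/-- All the terms of `B` have total degree at most `n`, and `Yⁿ` does not occur. -/
def Lower {R : Type} [CommRing R] (n : ℕ) (B : R[X][X]) : Prop :=
  B.natDegree < n ∧ ∀ j, B.coeff j ≠ 0 → (B.coeff j).natDegree + j ≤ n

/-- The form of degree `n` of `A` at `X = 1`; its roots are the points at infinity of a curve `A = 0`
with `Plane n A`. -/
noncomputable def atInfinity {R : Type} [CommRing R] (n : ℕ) (A : R[X][X]) : R[X] :=
  ∑ j ∈ Finset.range (n + 1), C ((A.coeff j).coeff (n - j)) * X ^ j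

/-- The partial derivative with respect to `X`. -/
noncomputable def derivX {R : Type} [CommRing R] (A : R[X][X]) : R[X][X] :=
  A.sum fun j a => C (derivative a) * X ^ j

/-- The plane curve with the affine equation `A = 0` of degree `n` is smooth, and meets the line at
infinity in `n` different geometric points. -/
def SmoothPlane {R : Type} [CommRing R] (n : ℕ) (A : R[X][X]) : Prop :=
  (∃ a b c : R[X][X], a * A + b * derivX A + c * derivative A = 1) ∧
    IsCoprime (atInfinity n A) (derivative (atInfinity n A))

/-- The polynomial `A(X, Y) + w B(X, Y)` over `K`. -/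
noncomputable def curve {M K : Type} [Field M] [Field K] [Algebra M K] (A B : M[X][X]) (w : K) :
    K[X][X] :=
  A.map (mapRingHom (algebraMap M K)) + C (C w) * B.map (mapRingHom (algebraMap M K))

/-- The closed base points: the prime ideals which contain `A` and `B`. -/
abbrev BasePoint {M : Type} [Field M] (A B : M[X][X]) : Type :=
  {P : Ideal M[X][X] // P.IsPrime ∧ A ∈ P ∧ B ∈ P}

/-- The irreducible factors of `B` up to constants. -/
abbrev Component {M : Type} [Field M] (B : M[X][X]) : Type :=
  {p : Associates M[X][X] // Irreducible p ∧ p ∣ Associates.mk B}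

/-- The member of the pencil over the point `Φ(w) = 0`, that is `∏ (A + θ B)` over the zeros `θ` of the
monic polynomial `Φ`, up to the sign: `∑ Φ_i (-A)^i B^(deg Φ - i)`. -/
noncomputable def member {M : Type} [Field M] (A B : M[X][X]) (Φ : M[X]) : M[X][X] :=
  ∑ i ∈ Finset.range (Φ.natDegree + 1), C (C (Φ.coeff i)) * (-A) ^ i * B ^ (Φ.natDegree - i)

/-- The rank: the number of the closed base points, minus the number of the distinct irreducible factors
of `B`, minus the sum over the closed points `Φ` of the affine line of the number of the distinct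
irreducible factors of the member over `Φ` minus `1`. -/
noncomputable def rho {M : Type} [Field M] (A B : M[X][X]) : ℤ :=
  (Nat.card (BasePoint A B) : ℤ) - Nat.card (Component B) -
    ∑ᶠ Φ : {Φ : M[X] // Φ.Monic ∧ Irreducible Φ}, ((Nat.card (Component (member A B Φ.1)) : ℤ) - 1)

/-- The trace of the Frobenius on `H¹` of the smooth plane curve `g(x, y) = 0` of degree `n` over the
finite field `F`: the number of the elements of `F` plus one, minus the number of the affine points, minus
the number of the points at infinity. -/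
noncomputable def trace (F : Type) [Field F] (n : ℕ) (g : F[X][X]) : ℝ :=
  (Nat.card F : ℝ) + 1 - Nat.card {P : F × F // evalEval P.1 P.2 g = 0} -
    Nat.card {y : F // eval y (atInfinity n g) = 0}

/-- The average `𝔄_v = q_v^{-e} ∑ a(fibre)` of the traces of the smooth fibres of `G(X, Y) = 0` over the
points of `Spec R` above `v`, rational over the residue field of `v`, at which `N` does not vanish. -/
noncomputable def average {k R : Type} [Field k] [NumberField k] [CommRing R] [Algebra (𝓞 k) R]
    (n : ℕ) (G : R[X][X]) (N : R) (e : ℕ) (v : HeightOneSpectrum (𝓞 k)) : ℝ :=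
  ((Nat.card (𝓞 k ⧸ v.asIdeal) : ℝ) ^ e)⁻¹ *
    ∑ᶠ φ : {φ : R →+* 𝓞 k ⧸ v.asIdeal //
      (φ.comp (algebraMap (𝓞 k) R) = Ideal.Quotient.mk v.asIdeal ∧ φ N ≠ 0) ∧
        SmoothPlane n (G.map (mapRingHom φ))},
        trace (𝓞 k ⧸ v.asIdeal) n (G.map (mapRingHom φ.1))

/-- `Σ_T(b) = ∑_{v ∉ S, q_v ≤ T} b(v) log q_v`. -/
noncomputable def sumUpTo {k : Type} [Field k] [NumberField k] (S : Finset (HeightOneSpectrum (𝓞 k)))
    (b : HeightOneSpectrum (𝓞 k) → ℝ) (T : ℝ) : ℝ :=
  ∑ᶠ v ∈ {v : HeightOneSpectrum (𝓞 k) | v ∉ S ∧ (Ideal.absNorm v.asIdeal : ℝ) ≤ T},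
    b v * Real.log (Ideal.absNorm v.asIdeal : ℝ)

theorem member_eq {M : Type} [Field M] (A B : M[X][X]) (Φ : M[X]) :
    member A B Φ = Pool.Agent.K3h71.PP.mem A B Φ := by
  unfold member Pool.Agent.K3h71.PP.mem Pool.Agent.K3h82.CP.hm
  refine Finset.sum_congr rfl fun i _ => ?_
  rw [Pool.Agent.K3h82.CP.sg_coeff]

/-- **The Tauberian generalized Nagao conjecture for all the pencils `A(X, Y) + w B(X, Y) = 0` of plane
curves, for an arbitrary finitely generated field `M` of characteristic zero and for every model.** -/
theorem result {k : Type} [Field k] [NumberField k] {M : Type} [Field M] [CharZero M] [Algebra k M]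
    (hM : ∃ S : Finset M, Subfield.closure (S : Set M) = ⊤) {d : ℕ} (hd : Algebra.trdeg ℚ M = d)
    {K : Type} [Field K] [CharZero K] [Algebra M K] {w : K} (hw : Transcendental M w)
    (hK : IntermediateField.adjoin M {w} = ⊤)
    {n : ℕ} (hn : 0 < n) {A B : M[X][X]} (hA : Plane n A) (hB : Lower n B)
    (hAB : IsCoprime (atInfinity n A) (atInfinity n B))
    [hD : IsDedekindDomain (AdjoinRoot (curve A B w))] :
    Algebra.trdeg ℚ K = (d + 1 : ℕ) ∧ Plane n (curve A B w) ∧ SmoothPlane n (curve A B w) ∧
    Irreducible (atInfinity n (curve A B w)) ∧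
    -- the algebraic side: the rank of the class group
    Finite (BasePoint A B) ∧ Finite (Component B) ∧
    {Φ : M[X] | Φ.Monic ∧ Irreducible Φ ∧ Nat.card (Component (member A B Φ)) ≠ 1}.Finite ∧
    (∃ r : ℕ, (r : ℤ) = rho A B ∧
      Module.rank ℤ (Additive (ClassGroup (AdjoinRoot (curve A B w)))) = r) ∧
    -- the analytic side: the limit of the averages of the `𝔄_v`, for every model
    ∀ (R : Type) [CommRing R] [IsDomain R] [Algebra.FiniteType ℤ R] [Algebra R K]
      [IsFractionRing R K] [Algebra (𝓞 k) R],
      (∀ z : 𝓞 k, algebraMap R K (algebraMap (𝓞 k) R z) = algebraMap M K (algebraMap k M z)) →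
      ∀ G : R[X][X], Plane n G → G.map (mapRingHom (algebraMap R K)) = curve A B w →
        (∃ N₀ : R, N₀ ≠ 0 ∧ ∀ (F : Type) [Field F] (φ : R →+* F), φ N₀ ≠ 0 →
          SmoothPlane n (G.map (mapRingHom φ))) ∧
        ∀ N : R, N ≠ 0 → ∀ S : Finset (HeightOneSpectrum (𝓞 k)),
          Tendsto (fun T : ℝ => sumUpTo S (fun v => average n G N (d + 1) v) T / T) atTop
            (𝓝 (-(rho A B : ℝ))) := by
  classical
  have hA' : Pool.Agent.K3h71.PP.IsPl n A := ⟨hA.1, hA.2.1, hA.2.2⟩
  have hB' : Pool.Agent.K3h71.PP.IsLw n B := ⟨hB.1, hB.2⟩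
  have hB0' : Pool.Agent.K3h71.PP.ld n B ≠ 0 := by
    intro h0
    have h1 := Pool.Agent.K3h71.PP.ld_monic hA'
    have h2 : IsCoprime (Pool.Agent.K3h71.PP.ld n A) (Pool.Agent.K3h71.PP.ld n B) := hAB
    rw [h0, isCoprime_zero_right] at h2
    have h3 := natDegree_eq_zero_of_isUnit h2
    omega
  have hB0 : atInfinity n B ≠ 0 := hB0'
  have hAB' : IsCoprime (Pool.Agent.K3h71.PP.ld n A) (Pool.Agent.K3h71.PP.ld n B) := hAB
  have hD' : IsDedekindDomain (AdjoinRoot (Pool.Agent.K3h82.CP.FF A B w)) := hD
  have hF : Pool.Agent.K3h71.PP.IsPl n (Pool.Agent.K3h82.CP.FF A B w) :=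
    Pool.Agent.K3h71.PP.FF_pl hA' hB'
  have hs := Pool.Agent.K3h71.PP.ff_smooth hn hA' hB' hB0' hAB' hw hK
  have hBne : B ≠ 0 := by
    rintro rfl
    apply hB0
    unfold atInfinity
    simp
  obtain ⟨A₀, hft, hfr, hAk, a, b, P, t0, hN⟩ :=
    Pool.Agent.K3h71.PP.exists_nice (k := k) hM hs hw hK
  obtain ⟨f1, r, r1, r2, r3⟩ := Pool.Agent.K3h71.PP.alg_side hN hn hA' hB' hB0' hAB' hw hK
  have hrho : (r : ℤ) = rho A B := by
    rw [r1]
    unfold rho
    simp only [member_eq]
  have hbp : Finite (BasePoint A B) := by
    have h1 := Pool.Agent.K3h82.CP.bpt_finite (hN.irr0 hn hA' hB')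
      (Pool.Agent.K3h71.PP.not_dvd hA' hB' hBne _)
    refine Finite.of_injective (β := Pool.Agent.K3h82.CP.BPt
      (A + C (C (algebraMap A₀ M t0)) * B) B) (fun P => ⟨P.1, P.2.1,
        P.1.add_mem P.2.2.1 (P.1.mul_mem_left _ P.2.2.2), P.2.2.2⟩) ?_
    intro P Q hPQ
    exact Subtype.ext (congrArg (fun z => z.1) hPQ)
  refine ⟨Pool.Agent.R410.NG.trdeg_line hd hw hK, ⟨hF.monic, hF.deg, hF.tot⟩, hs, ?_, hbp,
    Pool.Agent.K3h82.CP.cmp_finite hBne, ?_, ⟨r, hrho, r3⟩, ?_⟩
  · have h1 := Pool.Agent.K3h71.PP.ld_monic hA'
    have h2 := Pool.Agent.K3h71.PP.irr_lead (K := K) h1.1 hAB' hB0'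
      (by rw [h1.2]; exact Pool.Agent.K3h71.PP.ld_lt hB' hn) hw hK
    rw [← Pool.Agent.K3h71.PP.ld_FF] at h2
    exact h2
  · simp only [member_eq]
    exact f1
  intro R _ _ _ _ _ _ hk G hG hGK
  refine ⟨Pool.Agent.K3h71.PP.disc_model hs R hGK, ?_⟩
  intro N hN0 S
  have hG' : Pool.Agent.K3h71.PP.IsPl n G := ⟨hG.1, hG.2.1, hG.2.2⟩
  have h6 := Pool.Agent.K3h71.PP.natural_pl (k := k) hd Pool.Agent.K3h71.PP.t_Weil' hn hA' hB'
    hB0' hAB' hw hK A₀ hAk hN (hN.irr0 hn hA' hB')
    (Pool.Agent.K3h71.PP.not_dvd hA' hB' hBne _) R hk hG' hGK hN0 S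
  have h7 : (Nat.card (Pool.Agent.K3h82.CP.BPt A B) : ℝ) -
      Nat.card (Pool.Agent.K3h71.PP.Cm (B * Pool.Agent.K3h71.PP.mem A B
        (P.map (algebraMap A₀ M)))) + Nat.card (Pool.Agent.K3h71.PP.Cm
          (C (P.map (algebraMap A₀ M)) : M[X][X])) = (rho A B : ℝ) := by
    rw [← hrho]
    have := congrArg (fun z : ℤ => (z : ℝ)) r2
    push_cast at this
    rw [Int.cast_natCast, this]
  rw [h7] at h6
  have h8 := Pool.Agent.R410.NG.sumT_lim h6
  -- the places which divide `n`
  have hn0 : ((n : ℕ) : 𝓞 k) ≠ 0 := by exact_mod_cast hn.ne'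
  have hZ : {v : HeightOneSpectrum (𝓞 k) | ((n : ℕ) : 𝓞 k) ∈ v.asIdeal}.Finite := by
    have := Pool.Agent.Y707.PC.ae_notMem hn0
    rw [Filter.eventually_cofinite] at this
    simpa only [not_not] using this
  have h9 : ∀ v, v ∉ hZ.toFinset → -average n G N (d + 1) v = Pool.Agent.R410.NG.avg
      (Pool.Agent.K3h71.PP.wP n) (Pool.Agent.K3h71.PP.tupP n G) N (d + 1) v := by
    intro v hv
    rw [Set.Finite.mem_toFinset] at hv
    have hnv : ((n : ℕ) : 𝓞 k ⧸ v.asIdeal) ≠ 0 := by
      intro h0
      apply hv
      show ((n : ℕ) : 𝓞 k) ∈ v.asIdeal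
      rw [← Ideal.Quotient.eq_zero_iff_mem, map_natCast]
      exact h0
    unfold Pool.Agent.R410.NG.avg Pool.Agent.R410.NG.sR average
    rw [← mul_neg, ← finsum_neg_distrib]
    congr 1
    rw [finsum_subtype_eq_finsum_cond (f := fun φ : R →+* 𝓞 k ⧸ v.asIdeal =>
        -trace (𝓞 k ⧸ v.asIdeal) n (G.map (mapRingHom φ)))
        (fun φ => (φ.comp (algebraMap (𝓞 k) R) = Ideal.Quotient.mk v.asIdeal ∧ φ N ≠ 0) ∧
          SmoothPlane n (G.map (mapRingHom φ))),
      finsum_subtype_eq_finsum_cond (f := fun φ : R →+* 𝓞 k ⧸ v.asIdeal =>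
        Pool.Agent.K3h71.PP.wP n (𝓞 k ⧸ v.asIdeal)
          (fun j => (Pool.Agent.K3h71.PP.tupP n G j).map φ))
        (fun φ => φ.comp (algebraMap (𝓞 k) R) = Ideal.Quotient.mk v.asIdeal ∧ φ N ≠ 0)]
    refine finsum_congr fun φ => ?_
    rw [finsum_eq_if, finsum_eq_if]
    have e1 : (fun j => (Pool.Agent.K3h71.PP.tupP n G j).map φ) =
        Pool.Agent.K3h71.PP.tupP n (G.map (mapRingHom φ)) :=
      funext fun j => Pool.Agent.K3h71.PP.tupP_map φ G j
    have e2 : Pool.Agent.K3h71.PP.IsPl n (G.map (mapRingHom φ)) := hG'.map φ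
    unfold Pool.Agent.K3h71.PP.wP
    rw [e1, Pool.Agent.K3h71.PP.plOf_tupP e2]
    by_cases h1 : φ.comp (algebraMap (𝓞 k) R) = Ideal.Quotient.mk v.asIdeal ∧ φ N ≠ 0
    · by_cases h2 : SmoothPlane n (G.map (mapRingHom φ))
      · have h2' : Pool.Agent.K3h71.PP.Smooth n (G.map (mapRingHom φ)) := h2
        rw [if_pos ⟨h1, h2⟩, if_pos h1, if_pos ⟨hnv, e2, h2'⟩]
        unfold trace
        have e3 : atInfinity n (G.map (mapRingHom φ)) =
          Pool.Agent.K3h71.PP.ld n (G.map (mapRingHom φ)) := rfl
        rw [e3]
        ring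
      · rw [if_neg (fun h => h2 h.2), if_pos h1, if_neg (fun h => h2 h.2.2)]
    · rw [if_neg (fun h => h1 h.1), if_neg h1]
  have h10 := (Pool.Agent.K3h82.CP.sumT_fin S hZ.toFinset h9 h8).neg
  refine h10.congr fun T => ?_
  rw [Pool.Agent.R410.NG.sumT_neg, neg_div, neg_neg]
  rfl

end Pool.Agent.Results.MP_1a0ddd_nt.PlanePencils
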